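import Pool.Agent.Helper58_MTG.Core

/-! ZSA: the first zero estimate. -/

set_option autoImplicit false
set_option linter.unusedSectionVars false

namespace Pool.Agent.MT100G.H58

open Matrix Polynomial Pool.Agent.MT100 Pool.Agent.Helper58_MT

variable {d : Type} [Fintype d] [DecidableEq d]

/-- the solution as a column -/
noncomputable def hc (H : Matrix d d (PowerSeries ℚ)) (u : d → ℚ) : Matrix d Unit (PowerSeries ℚ) :=
  Matrix.of fun i _ => hv H u i

theorem hc_eq (H : Matrix d d (PowerSeries ℚ)) (u : d → ℚ) :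
    hc H u = H * pc (Matrix.of fun (j : d) (_ : Unit) => u j) := by
  ext1 i j
  rw [Matrix.mul_apply, hc, Matrix.of_apply, hv]
  refine Finset.sum_congr rfl fun x _ => ?_
  have h1 : pc (Matrix.of fun (j : d) (_ : Unit) => u j) x j = PowerSeries.C (u x) := by
    rw [PowerSeries.C_eq_algebraMap]
    rfl
  rw [h1]

theorem hc_ode (q : ℚ[X]) (B : Matrix d d ℚ[X]) (N : Matrix d d ℚ)
    (H : Matrix d d (PowerSeries ℚ))
    (hH : co (X * q) • H.map (PowerSeries.derivative ℚ) = B.map co * H - co q • (H * pc N))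
    (u : d → ℚ) (hu : N *ᵥ u = 0) :
    co (X * q) • (hc H u).map (PowerSeries.derivative ℚ) = B.map co * hc H u
      - co q • (hc H u * (0 : Matrix Unit Unit ℚ).map (algebraMap ℚ (PowerSeries ℚ))) := by
  have h0 : (0 : Matrix Unit Unit ℚ).map (algebraMap ℚ (PowerSeries ℚ)) = 0 := by ext1; simp
  rw [h0, Matrix.mul_zero, smul_zero, sub_zero]
  set U : Matrix d Unit ℚ := Matrix.of fun (j : d) (_ : Unit) => u j with hU
  have h1 : (hc H u).map (PowerSeries.derivative ℚ) = H.map (PowerSeries.derivative ℚ) * pc U := by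
    rw [hc_eq]
    ext1 i j
    simp only [Matrix.map_apply, Matrix.mul_apply, map_sum, Derivation.leibniz,
      Derivation.map_algebraMap, smul_eq_mul, mul_zero, zero_add]
    refine Finset.sum_congr rfl fun x _ => ?_
    rw [mul_comm]
  have h2 : N * U = 0 := by
    ext1 i j
    have := congrFun hu i
    rw [Matrix.mul_apply]
    exact this
  have h3 : H * pc N * pc U = 0 := by
    rw [Matrix.mul_assoc]
    have : pc N * pc U = pc (N * U) := by
      exact (Matrix.map_mul (f := algebraMap ℚ (PowerSeries ℚ))).symm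
    rw [this, h2]
    have : pc (0 : Matrix d Unit ℚ) = 0 := by ext1; simp
    rw [this, Matrix.mul_zero]
  rw [h1, ← Matrix.smul_mul, hH, Matrix.sub_mul, Matrix.smul_mul, h3, smul_zero, sub_zero,
    hc_eq, Matrix.mul_assoc]

/-- evaluation of a row vector at the solution -/
noncomputable def pr (H : Matrix d d (PowerSeries ℚ)) (u : d → ℚ) (p : d → ℚ[X]) :
    PowerSeries ℚ := ∑ i, co (p i) * hv H u i

theorem pr_add (H : Matrix d d (PowerSeries ℚ)) (u : d → ℚ) (p p' : d → ℚ[X]) :
    pr H u (p + p') = pr H u p + pr H u p' := by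
  simp only [pr, Pi.add_apply, map_add, add_mul, Finset.sum_add_distrib]

theorem pr_smul (H : Matrix d d (PowerSeries ℚ)) (u : d → ℚ) (f : ℚ[X]) (p : d → ℚ[X]) :
    pr H u (f • p) = co f * pr H u p := by
  simp only [pr, Pi.smul_apply, smul_eq_mul, map_mul, mul_assoc, Finset.mul_sum]

theorem pr_zero (H : Matrix d d (PowerSeries ℚ)) (u : d → ℚ) : pr H u 0 = 0 := by
  simp [pr]

theorem trace_pr (H : Matrix d d (PowerSeries ℚ)) (u : d → ℚ) (p : d → ℚ[X]) :
    trace ((rr p).map co * hc H u) = pr H u p := by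
  simp only [trace, Finset.univ_unique, diag_apply, Finset.sum_singleton, Matrix.mul_apply,
    Matrix.map_apply, rr, hc, Matrix.of_apply]
  rfl

/-- relations are stable -/
theorem pr_nb (q : ℚ[X]) (B : Matrix d d ℚ[X]) (N : Matrix d d ℚ)
    (H : Matrix d d (PowerSeries ℚ))
    (hH : co (X * q) • H.map (PowerSeries.derivative ℚ) = B.map co * H - co q • (H * pc N))
    (u : d → ℚ) (hu : N *ᵥ u = 0) (m : ℕ) (p : d → ℚ[X]) (hp : pr H u p = 0) :
    pr H u (nb q B m p) = 0 := by
  rw [← trace_pr, rr_nb, stp_trace co (PowerSeries.derivative ℚ) co_der q B 0 m (rr p) (hc H u)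
    (hc_ode q B N H hH u hu), trace_pr, hp, map_zero, mul_zero, mul_zero, sub_zero]

/-- the orders of the forms -/
theorem pr_Pv (q : ℚ[X]) (B : Matrix d d ℚ[X]) (N : Matrix d d ℚ)
    (H : Matrix d d (PowerSeries ℚ))
    (hH : co (X * q) • H.map (PowerSeries.derivative ℚ) = B.map co * H - co q • (H * pc N))
    (u : d → ℚ) (hu : N *ᵥ u = 0) (P : d → ℚ[X]) (T : ℕ)
    (hT : (PowerSeries.X : PowerSeries ℚ) ^ T ∣ pr H u P) (k : ℕ) :
    (PowerSeries.X : PowerSeries ℚ) ^ T ∣ pr H u (Pv q B P k) := by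
  have h2 := pk_trace co (PowerSeries.derivative ℚ) co_der q B 0 (rr P) (hc H u)
    (hc_ode q B N H hH u hu) k
  rw [← rr_Pv, trace_pr, trace_pr] at h2
  have h3 : (PowerSeries.X : PowerSeries ℚ) ^ T ∣ (k.factorial : PowerSeries ℚ) *
      pr H u (Pv q B P k) := by
    rw [h2, map_mul, mul_pow, co_X, mul_right_comm]
    exact Dvd.dvd.mul_right (X_pow_dvd_iter T k _ hT) _
  exact (isUnit_factorial k).dvd_mul_left.1 h3

/-- degrees of the forms -/
theorem Pv_natDegree (q : ℚ[X]) (B : Matrix d d ℚ[X]) (P : d → ℚ[X]) (c M : ℕ)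
    (hq : (X * q).natDegree ≤ c) (hB : ∀ i j, (B i j).natDegree ≤ c)
    (hP : ∀ i, (P i).natDegree ≤ M) (k : ℕ) (i : d) : (Pv q B P k i).natDegree ≤ M + c * k := by
  have h1 := pk_natDegree q B (0 : Matrix Unit Unit ℚ) (rr P) c M hq hB (fun _ j => hP j) k () i
  rw [← rr_Pv] at h1
  exact h1

/-- independence of the forms and the relations -/
theorem li_family (q : ℚ[X]) (B : Matrix d d ℚ[X]) (P : d → ℚ[X]) {e : ℕ}
    (R : Fin e → d → ℚ[X]) (hR : LinearIndependent ℚ[X] R) (n : ℕ)
    (h : ∀ k < n, Pv q B P k ∉ sat (SS q B P R k)) :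
    LinearIndependent ℚ[X] (Sum.elim (fun k : Fin n => Pv q B P k) R) := by
  classical
  rw [Fintype.linearIndependent_iff] at hR ⊢
  intro g hg
  rw [Fintype.sum_sum_type] at hg
  simp only [Sum.elim_inl, Sum.elim_inr] at hg
  have h1 : ∀ k : Fin n, g (Sum.inl k) = 0 := by
    by_contra hcon
    push Not at hcon
    obtain ⟨k1, hk1⟩ := hcon
    set T := (Finset.univ : Finset (Fin n)).filter (fun k => g (Sum.inl k) ≠ 0) with hT
    have hTne : T.Nonempty := ⟨k1, by simp [hT, hk1]⟩
    set k0 := T.max' hTne with hk0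
    have hk0T : k0 ∈ T := T.max'_mem hTne
    have hg0 : g (Sum.inl k0) ≠ 0 := (Finset.mem_filter.1 hk0T).2
    apply h k0 k0.2
    refine ⟨g (Sum.inl k0), hg0, ?_⟩
    have h2 : g (Sum.inl k0) • Pv q B P k0
        = -(∑ k ∈ (Finset.univ : Finset (Fin n)).erase k0, g (Sum.inl k) • Pv q B P k
          + ∑ j, g (Sum.inr j) • R j) := by
      rw [← Finset.add_sum_erase _ _ (Finset.mem_univ k0)] at hg
      rw [add_assoc] at hg
      exact eq_neg_of_add_eq_zero_left hg
    rw [h2]
    refine Submodule.neg_mem _ (Submodule.add_mem _ (Submodule.sum_mem _ fun k hk => ?_)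
      (Submodule.sum_mem _ fun j _ => Submodule.smul_mem _ _ (R_mem_SS q B P R _ j)))
    by_cases h3 : g (Sum.inl k) = 0
    · rw [h3, zero_smul]; exact Submodule.zero_mem _
    · refine Submodule.smul_mem _ _ (P_mem_SS q B P R ?_)
      have h4 : k ≤ k0 := T.le_max' k (by simp [hT, h3])
      have h5 : k ≠ k0 := Finset.ne_of_mem_erase hk
      exact lt_of_le_of_ne h4 fun h => h5 (Fin.ext h)
  have h2 : ∑ j, g (Sum.inr j) • R j = 0 := by
    rw [← hg]
    simp [h1]
  rintro (k | j)
  · exact h1 k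
  · exact hR (fun j => g (Sum.inr j)) h2 j

theorem span_family (q : ℚ[X]) (B : Matrix d d ℚ[X]) (P : d → ℚ[X]) {e : ℕ}
    (R : Fin e → d → ℚ[X]) (n : ℕ) :
    Submodule.span ℚ[X] (Set.range (Sum.elim (fun k : Fin n => Pv q B P k) R))
      = SS q B P R n := by
  unfold SS
  congr 1
  ext p
  constructor
  · rintro ⟨k | j, rfl⟩
    · exact Or.inr ⟨k, k.2, rfl⟩
    · exact Or.inl ⟨j, rfl⟩
  · rintro (⟨j, rfl⟩ | ⟨k, hk, rfl⟩)
    · exact ⟨Sum.inr j, rfl⟩
    · exact ⟨Sum.inl ⟨k, hk⟩, rfl⟩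

/-- the relations are stable up to a factor -/
theorem nb_R (q : ℚ[X]) (B : Matrix d d ℚ[X]) (N : Matrix d d ℚ)
    (H : Matrix d d (PowerSeries ℚ))
    (hH : co (X * q) • H.map (PowerSeries.derivative ℚ) = B.map co * H - co q • (H * pc N))
    (u : d → ℚ) (hu : N *ᵥ u = 0) {e : ℕ} (R : Fin e → d → ℚ[X]) (hR : RelB (hv H u) R)
    (j : Fin e) : ∃ f : ℚ[X], f ≠ 0 ∧ f • nb q B 0 (R j) ∈ Submodule.span ℚ[X] (Set.range R) := by
  have h1 : pr H u (R j) = 0 := hR.rel j
  exact hR.max _ (pr_nb q B N H hH u hu 0 (R j) h1)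

theorem Dt_eq (q : ℚ[X]) (B : Matrix d d ℚ[X]) (P : d → ℚ[X]) {m' e : ℕ}
    (ε : d ≃ Fin m' ⊕ Fin e) (R : Fin e → d → ℚ[X]) :
    Dt q B P ε R = (Matrix.of fun i => Sum.elim (fun k : Fin m' => Pv q B P k) R (ε i)).det := by
  unfold Dt
  congr 1
  ext1 i j
  simp only [Matrix.of_apply]
  rcases ε i with k | l <;> rfl

theorem gsys_data {H K : Matrix d d (PowerSeries ℚ)} {N : Matrix d d ℤ} {q : ℤ[X]}
    {B : Matrix d d ℤ[X]} (hG : GSys H K N q B) : zq q ≠ 0 ∧ ∃ c : ℕ,
      (X * zq q).natDegree ≤ c ∧ ∀ i j, ((B.map zq) i j).natDegree ≤ c := by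
  refine ⟨?_, (X * zq q).natDegree + ∑ i, ∑ j, ((B.map zq) i j).natDegree, by omega, ?_⟩
  · intro h
    exact hG.q0 ((Polynomial.map_eq_zero_iff (RingHom.injective_int (Int.castRingHom ℚ))).1 h)
  · intro i j
    have h1 : ((B.map zq) i j).natDegree ≤ ∑ j, ((B.map zq) i j).natDegree :=
      Finset.single_le_sum (f := fun j => ((B.map zq) i j).natDegree) (fun _ _ => Nat.zero_le _)
        (Finset.mem_univ j)
    have h2 : ∑ j, ((B.map zq) i j).natDegree ≤ ∑ i, ∑ j, ((B.map zq) i j).natDegree :=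
      Finset.single_le_sum (f := fun i => ∑ j, ((B.map zq) i j).natDegree)
        (fun _ _ => Nat.zero_le _) (Finset.mem_univ i)
    omega

theorem degR {e : ℕ} (R : Fin e → d → ℚ[X]) : ∃ c : ℕ, ∀ l i, (R l i).natDegree ≤ c := by
  refine ⟨∑ l, ∑ i, (R l i).natDegree, fun l i => ?_⟩
  have h1 : (R l i).natDegree ≤ ∑ i, (R l i).natDegree :=
    Finset.single_le_sum (f := fun i => (R l i).natDegree) (fun _ _ => Nat.zero_le _)
      (Finset.mem_univ i)
  have h2 : ∑ i, (R l i).natDegree ≤ ∑ l, ∑ i, (R l i).natDegree :=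
    Finset.single_le_sum (f := fun l => ∑ i, (R l i).natDegree)
      (fun _ _ => Nat.zero_le _) (Finset.mem_univ l)
  omega

/-- ZSA -/
theorem zsa : ZsaStmt := by
  classical
  intro d _ _ H K N q B hG u hu m' e ε R hR
  obtain ⟨hq0, c, hc, hB⟩ := gsys_data hG
  obtain ⟨c3, hc3⟩ := degR R
  refine ⟨Fintype.card d * (c * Fintype.card d) + e * c3, ?_⟩
  intro M P hM hne hord
  by_contra hDt
  set q' := zq q with hq'
  set B' := B.map zq with hB'
  have hode := gsys_ode hG
  -- a dependence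
  obtain ⟨l, hl1, hl2, hl3⟩ : ∃ l, l < m' ∧ Pv q' B' P l ∈ sat (SS q' B' P R l) ∧
      ∀ k < l, Pv q' B' P k ∉ sat (SS q' B' P R k) := by
    have hex : ∃ l, l < m' ∧ Pv q' B' P l ∈ sat (SS q' B' P R l) := by
      by_contra hcon
      push Not at hcon
      have h1 := li_family q' B' P R hR.indep m' hcon
      have h2 := det_ne_zero_of_li _ (h1.comp ε ε.injective)
      rw [Dt_eq] at hDt
      exact h2 hDt
    refine ⟨Nat.find hex, (Nat.find_spec hex).1, (Nat.find_spec hex).2, fun k hk => ?_⟩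
    intro h
    exact Nat.find_min hex hk ⟨hk.trans (Nat.find_spec hex).1, h⟩
  have hl0 : 0 < l := by
    rcases Nat.eq_zero_or_pos l with h | h
    · exfalso
      subst h
      obtain ⟨f, hf, hfP⟩ := hl2
      have h1 : SS q' B' P R 0 = Submodule.span ℚ[X] (Set.range R) := by
        unfold SS
        simp
      rw [h1] at hfP
      have h2 : ∀ p ∈ Submodule.span ℚ[X] (Set.range R), pr H u p = 0 := by
        intro p hp
        induction hp using Submodule.span_induction with
        | mem p hp => obtain ⟨j, rfl⟩ := hp; exact hR.rel j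
        | zero => exact pr_zero H u
        | add a b _ _ ha hb => rw [pr_add, ha, hb, add_zero]
        | smul c a _ ha => rw [pr_smul, ha, mul_zero]
      have h3 := h2 _ hfP
      rw [pr_smul] at h3
      exact hne ((mul_eq_zero.1 h3).resolve_left fun h => hf (co_eq_zero.1 h))
    · exact h
  have hli := li_family q' B' P R hR.indep l hl3
  have hlD : l + e ≤ Fintype.card d := by
    have h1 := hli.cardinalMk_le_finrank
    rw [Module.finrank_fintype_fun_eq_card, Cardinal.mk_fintype, Fintype.card_sum,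
      Fintype.card_fin, Fintype.card_fin] at h1
    exact_mod_cast h1
  have hstab : ∀ m, ∀ p ∈ sat (Submodule.span ℚ[X]
      (Set.range (Sum.elim (fun k : Fin l => Pv q' B' P k) R))),
      nb q' B' m p ∈ sat (Submodule.span ℚ[X]
      (Set.range (Sum.elim (fun k : Fin l => Pv q' B' P k) R))) := by
    rw [span_family]
    intro m p hp
    refine nb_sat q' B' P R l hl2 (fun j => ?_) m p hp
    obtain ⟨f, hf, h⟩ := nb_R q' B' _ H hode u hu R hR j
    refine ⟨f, hf, ?_⟩
    exact (Submodule.span_mono Set.subset_union_left) h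
  set T := (m' - 1) * M + (Fintype.card d * (c * Fintype.card d) + e * c3) + 1 with hT
  have hXT : (PowerSeries.X : PowerSeries ℚ) ^ T ∣ pr H u P := by
    rw [PowerSeries.X_pow_dvd_iff]
    intro i hi
    exact hord i (by omega)
  have hfin := core q' hq0 B' (N.map (fun x => (x : ℚ))) (gsys_nil hG.nil) H K hG.inv hode u
    (Fin l ⊕ Fin e) (Sum.elim (fun k : Fin l => Pv q' B' P k) R) hli hstab T
    (by
      rintro (k | j)
      · exact pr_Pv q' B' _ H hode u hu P T hXT k
      · have : pr H u (R j) = 0 := hR.rel j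
        show _ ∣ pr H u (R j)
        rw [this]
        exact dvd_zero _)
    (Sum.inl ⟨0, hl0⟩) hne (Sum.elim (fun k => M + c * k) (fun _ => c3))
    (by
      rintro (k | j) i
      · exact Pv_natDegree q' B' P c M hc hB hM k i
      · exact hc3 j i)
  rw [Fintype.sum_sum_type] at hfin
  simp only [Sum.elim_inl, Sum.elim_inr, Finset.sum_const, Finset.card_univ, Fintype.card_fin,
    smul_eq_mul] at hfin
  have h1 : ∑ k : Fin l, (M + c * (k : ℕ)) ≤ l * (M + c * Fintype.card d) := by
    refine (Finset.sum_le_card_nsmul _ _ (M + c * Fintype.card d) fun k _ => ?_).trans (by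
      rw [Finset.card_univ, Fintype.card_fin, smul_eq_mul])
    have : (k : ℕ) ≤ Fintype.card d := by have := k.2; omega
    have := Nat.mul_le_mul_left c this
    omega
  have h2 : l * (M + c * Fintype.card d)
      ≤ (m' - 1) * M + Fintype.card d * (c * Fintype.card d) := by
    rw [Nat.mul_add]
    refine Nat.add_le_add (Nat.mul_le_mul_right _ (by omega)) (Nat.mul_le_mul_right _ (by omega))
  omega

end Pool.Agent.MT100G.H58
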