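import Pool.Agent.Helper58_MTG.Zsa

/-! ZSB: the second zero estimate. -/

set_option autoImplicit false
set_option linter.unusedSectionVars false

namespace Pool.Agent.MT100G.H58

open Matrix Polynomial Pool.Agent.MT100 Pool.Agent.Helper58_MT

variable {d : Type} [Fintype d] [DecidableEq d]

/-- a nonzero polynomial does not vanish at `1/n` for large `n` -/
theorem eval_inv_ne (g : ℚ[X]) (hg : g ≠ 0) : ∃ n0 : ℕ, 1 ≤ n0 ∧ ∀ n : ℕ, n0 ≤ n →
    g.eval ((n : ℚ)⁻¹) ≠ 0 := by
  classical
  have hinj : Function.Injective fun n : ℕ => ((n : ℚ)⁻¹) := by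
    intro a b h
    have : (a : ℚ) = b := inv_injective h
    exact_mod_cast this
  have hfin : {n : ℕ | g.eval ((n : ℚ)⁻¹) = 0}.Finite := by
    have h1 : {n : ℕ | g.eval ((n : ℚ)⁻¹) = 0} = (fun n : ℕ => ((n : ℚ)⁻¹)) ⁻¹' {x | g.IsRoot x} := rfl
    rw [h1]
    refine Set.Finite.preimage hinj.injOn ?_
    have h2 : {x | g.IsRoot x} = (g.roots.toFinset : Set ℚ) := by
      ext x
      simp [hg]
    rw [h2]
    exact Finset.finite_toSet _
  obtain ⟨b, hb⟩ := hfin.bddAbove
  refine ⟨b + 1, by omega, fun n hn h => ?_⟩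
  have := hb h
  omega

/-- a submodule containing multiples of all unit vectors has many generators -/
theorem card_le_of_sat {ρ : Type} [Fintype ρ] (A : ρ → d → ℚ[X])
    (h : ∀ j : d, (Pi.single j (1 : ℚ[X]) : d → ℚ[X]) ∈ sat (Submodule.span ℚ[X] (Set.range A))) :
    Fintype.card d ≤ Fintype.card ρ := by
  choose f hf0 hf using h
  have h1 : LinearIndependent ℚ[X] fun j : d => f j • (Pi.single j (1 : ℚ[X]) : d → ℚ[X]) := by
    rw [Fintype.linearIndependent_iff]
    intro g hg i
    have h2 := congrFun hg i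
    rw [Finset.sum_apply, Finset.sum_eq_single i] at h2
    · simp only [Pi.smul_apply, Pi.single_eq_same, smul_eq_mul, mul_one, Pi.zero_apply] at h2
      exact (mul_eq_zero.1 h2).resolve_right (hf0 i)
    · intro b _ hb
      simp [Ne.symm hb]
    · intro h; exact absurd (Finset.mem_univ _) h
  have hft : Fintype (Set.range A) := Fintype.ofFinite _
  have h3 := linearIndependent_le_span' _ h1 (Set.range A) (by
    rintro _ ⟨j, rfl⟩
    exact hf j)
  have h4 : Fintype.card (Set.range A) ≤ Fintype.card ρ :=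
    Fintype.card_le_of_surjective _ Set.rangeFactorization_surjective
  rw [Cardinal.mk_fintype] at h3
  have h5 : Fintype.card d ≤ Fintype.card (Set.range A) := by exact_mod_cast h3
  omega

/-- the operator raises the index by one, up to the factor `F` -/
theorem nb_SS (q : ℚ[X]) (B : Matrix d d ℚ[X]) (P : d → ℚ[X]) {e : ℕ} (R : Fin e → d → ℚ[X])
    (F : ℚ[X]) (hF : ∀ j, F • nb q B 0 (R j) ∈ Submodule.span ℚ[X] (Set.range R)) (m : ℕ)
    (x : d → ℚ[X]) (hx : x ∈ SS q B P R m) : F • nb q B 0 x ∈ SS q B P R (m + 1) := by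
  unfold SS at hx
  induction hx using Submodule.span_induction with
  | mem x hx =>
      rcases hx with ⟨j, rfl⟩ | ⟨k, hk, rfl⟩
      · exact (Submodule.span_mono Set.subset_union_left) (hF j)
      · have hk' : k < m := hk
        rw [nb_index q B k 0, ← Pv_succ]
        refine Submodule.smul_mem _ _ (Submodule.add_mem _ (Submodule.smul_mem _ _ ?_)
          (Submodule.smul_mem _ _ ?_))
        · exact P_mem_SS q B P R (by omega)
        · exact P_mem_SS q B P R (by omega)
  | zero => rw [nb_zero, smul_zero]; exact Submodule.zero_mem _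
  | add x y _ _ hx hy => rw [nb_add, smul_add]; exact Submodule.add_mem _ hx hy
  | smul c x hx' hx =>
      rw [nb_smul, smul_add, smul_comm]
      exact Submodule.add_mem _ (Submodule.smul_mem _ _ hx)
        (Submodule.smul_mem _ _ (Submodule.smul_mem _ _ (SS_mono q B P R (Nat.le_succ m) hx')))

/-- lowering the order at `xi` -/
theorem lowerS (q : ℚ[X]) (B : Matrix d d ℚ[X]) (P : d → ℚ[X]) {e : ℕ} (R : Fin e → d → ℚ[X])
    (F : ℚ[X]) (hF : ∀ j, F • nb q B 0 (R j) ∈ Submodule.span ℚ[X] (Set.range R))
    (ξ : ℚ) (hξ : ξ ≠ 0) (hq : q.eval ξ ≠ 0) (hFξ : F.eval ξ ≠ 0) (a : ℕ) :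
    ∀ (m : ℕ) (g : ℚ[X]), g.eval ξ ≠ 0 →
    (∀ E : d → ℚ[X], ((X - C ξ) ^ a * g) • E ∈ SS q B P R m) →
    ∃ g' : ℚ[X], g'.eval ξ ≠ 0 ∧ ∀ E : d → ℚ[X], g' • E ∈ SS q B P R (m + a) := by
  induction a with
  | zero => intro m g hg h; exact ⟨g, hg, by simpa using h⟩
  | succ a ih =>
      intro m g hg h
      have h1 : ∀ E : d → ℚ[X],
          (F * (X * q * derivative ((X - C ξ) ^ (a + 1) * g))) • E ∈ SS q B P R (m + 1) := by
        intro E
        have h2 := nb_SS q B P R F hF m _ (h E)
        rw [nb_smul, smul_add] at h2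
        have h3 := SS_mono q B P R (Nat.le_succ m) (h (nb q B 0 E))
        have h4 := Submodule.smul_mem _ F h3
        have h5 := Submodule.sub_mem _ h2 h4
        rwa [add_sub_cancel_left, smul_smul] at h5
      have e : F * (X * q * derivative ((X - C ξ) ^ (a + 1) * g))
          = (X - C ξ) ^ a * (F * (X * q * (((a : ℚ[X]) + 1) * g + (X - C ξ) * derivative g))) := by
        rw [derivative_mul, derivative_X_sub_C_pow, Nat.add_sub_cancel]
        push_cast
        simp only [map_add, map_natCast, map_one]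
        ring
      simp only [e] at h1
      obtain ⟨g', hg', h'⟩ := ih (m + 1) _ (by
        simp only [eval_mul, eval_add, eval_X, eval_natCast, eval_one, eval_sub, eval_C, sub_self,
          zero_mul, add_zero]
        refine mul_ne_zero hFξ (mul_ne_zero (mul_ne_zero hξ hq) (mul_ne_zero ?_ hg))
        positivity) h1
      refine ⟨g', hg', fun E => ?_⟩
      have := h' E
      rwa [show m + 1 + a = m + (a + 1) by ring] at this

/-- `det` times everything is in the span -/
theorem det_fullS (q : ℚ[X]) (B : Matrix d d ℚ[X]) (P : d → ℚ[X]) {m' e : ℕ}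
    (ε : d ≃ Fin m' ⊕ Fin e) (R : Fin e → d → ℚ[X]) (E : d → ℚ[X]) :
    Dt q B P ε R • E ∈ SS q B P R m' := by
  classical
  rw [Dt_eq]
  set A : Matrix d d ℚ[X] :=
    Matrix.of fun i => Sum.elim (fun k : Fin m' => Pv q B P k) R (ε i) with hA
  obtain ⟨z, hz⟩ : ∃ z : d → ℚ[X], A.det • E = z ᵥ* A := by
    refine ⟨E ᵥ* A.adjugate, ?_⟩
    rw [Matrix.vecMul_vecMul, Matrix.adjugate_mul, Matrix.vecMul_smul, Matrix.vecMul_one]
  have h2 : A.det • E = ∑ i, z i • (Sum.elim (fun k : Fin m' => Pv q B P k) R (ε i)) := by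
    rw [hz]
    funext j
    simp only [Matrix.vecMul, dotProduct, hA, Matrix.of_apply, Finset.sum_apply, Pi.smul_apply,
      smul_eq_mul]
  rw [h2]
  refine Submodule.sum_mem _ fun i _ => Submodule.smul_mem _ _ ?_
  rcases ε i with k | l
  · exact P_mem_SS q B P R k.2
  · exact R_mem_SS q B P R m' l

/-- ZSB -/
theorem zsb : ZsbStmt := by
  classical
  intro d _ _ H K N q B hG u hu m' e ε R hR
  obtain ⟨hq0, c, hc, hB⟩ := gsys_data hG
  obtain ⟨c3, hc3⟩ := degR R
  set q' := zq q with hq'
  set B' := B.map zq with hB'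
  have hode := gsys_ode hG
  have hcard : Fintype.card d = m' + e := by
    rw [Fintype.card_congr ε, Fintype.card_sum, Fintype.card_fin, Fintype.card_fin]
  -- the factor `F`
  obtain ⟨F, hF0, hF⟩ : ∃ F : ℚ[X], F ≠ 0 ∧
      ∀ j, F • nb q' B' 0 (R j) ∈ Submodule.span ℚ[X] (Set.range R) := by
    have h1 := fun j => nb_R q' B' _ H hode u hu R hR j
    choose f hf0 hf using h1
    refine ⟨∏ j, f j, Finset.prod_ne_zero_iff.2 fun j _ => hf0 j, fun j => ?_⟩
    rw [← Finset.mul_prod_erase _ _ (Finset.mem_univ j), mul_comm, mul_smul]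
    exact Submodule.smul_mem _ _ (hf j)
  -- completion of `R`
  obtain ⟨κ, hκ, e1, jj, hdetR⟩ := completion (Fintype.card d - e) (Fin e) R
    (by rw [Fintype.card_fin]; omega) hR.indep
  set AR : Matrix d d ℚ[X] :=
    Matrix.of fun i => Sum.elim R (fun k => Pi.single (jj k) (1 : ℚ[X])) (e1 i) with hAR
  obtain ⟨n0, hn01, hn0⟩ := eval_inv_ne (q' * (F * AR.det)) (mul_ne_zero hq0 (mul_ne_zero hF0 hdetR))
  refine ⟨m' * (c * m') + e * c3, n0, ?_⟩
  intro M T τ P n hn hM hT hDt hbig
  set ξ : ℚ := (n : ℚ)⁻¹ with hξdef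
  have hξ : ξ ≠ 0 := by
    rw [hξdef]
    have : (n : ℚ) ≠ 0 := by
      have : n ≠ 0 := by omega
      exact_mod_cast this
    exact inv_ne_zero this
  have hev := hn0 n hn
  rw [eval_mul, eval_mul] at hev
  have hqξ : q'.eval ξ ≠ 0 := left_ne_zero_of_mul hev
  have hFξ : F.eval ξ ≠ 0 := left_ne_zero_of_mul (right_ne_zero_of_mul hev)
  have hRξ : AR.det.eval ξ ≠ 0 := right_ne_zero_of_mul (right_ne_zero_of_mul hev)
  -- independence of the relations at `ξ`
  have hdetξ : (AR.map (eval ξ)).det ≠ 0 := by
    have h1 := RingHom.map_det (evalRingHom ξ) AR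
    rw [coe_evalRingHom] at h1
    have h2 : (evalRingHom ξ).mapMatrix AR = AR.map (eval ξ) := rfl
    rw [h2] at h1
    rw [← h1]
    exact hRξ
  have hliR : LinearIndependent ℚ (fun l i => (R l i).eval ξ) := by
    have h1 := Matrix.linearIndependent_rows_of_det_ne_zero hdetξ
    have h2 := h1.comp (fun l : Fin e => e1.symm (Sum.inl l)) (by
      intro a b h
      simpa using h)
    have h3 : ((fun i => (AR.map (eval ξ)).row i) ∘ fun l : Fin e => e1.symm (Sum.inl l))
        = fun l i => (R l i).eval ξ := by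
      funext l i
      simp only [Function.comp_apply, Matrix.row_apply, Matrix.map_apply, hAR, Matrix.of_apply,
        Equiv.apply_symm_apply, Sum.elim_inl]
    rw [← h3]
    exact h2
  refine ⟨hliR, ?_⟩
  intro y hy hyR
  -- rows of full rank
  have hfin : ∀ (g : ℚ[X]) (m : ℕ), g.eval ξ ≠ 0 → m ≤ m' + τ →
      (∀ E : d → ℚ[X], g • E ∈ SS q' B' P R m) → y = 0 := by
    intro g m hg hm hE
    have hzero : ∀ p ∈ SS q' B' P R m, ∑ i, (p i).eval ξ * y i = 0 := by
      intro p hp
      unfold SS at hp
      induction hp using Submodule.span_induction with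
      | mem p hp =>
          rcases hp with ⟨j, rfl⟩ | ⟨k, hk, rfl⟩
          · exact hyR j
          · have hk' : k < m := hk
            exact hy k (by omega)
      | zero => simp
      | add a b _ _ ha hb =>
          simp only [Pi.add_apply, eval_add, add_mul, Finset.sum_add_distrib, ha, hb, add_zero]
      | smul c a _ ha =>
          simp only [Pi.smul_apply, smul_eq_mul, eval_mul, mul_assoc, ← Finset.mul_sum, ha,
            mul_zero]
    funext i
    have h1 := hzero _ (hE (Pi.single i 1))
    rw [Finset.sum_eq_single i] at h1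
    · simp only [Pi.smul_apply, Pi.single_eq_same, smul_eq_mul, mul_one] at h1
      exact (mul_eq_zero.1 h1).resolve_left hg
    · intro b _ hb
      simp [hb]
    · intro h; exact absurd (Finset.mem_univ _) h
  by_cases hu0 : u = 0
  · -- everything is a relation
    have hm0 : m' = 0 := by
      have h1 := card_le_of_sat (d := d) R (by
        intro j
        refine hR.max _ ?_
        have : ∀ i, hv H u i = 0 := by
          intro i
          unfold hv
          refine Finset.sum_eq_zero fun x _ => ?_
          rw [hu0]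
          simp
        simp [this])
      rw [Fintype.card_fin] at h1
      omega
    have hfull : ∀ E : d → ℚ[X], AR.det • E ∈ SS q' B' P R 0 := by
      intro E
      obtain ⟨z, hz⟩ : ∃ z : d → ℚ[X], AR.det • E = z ᵥ* AR := by
        refine ⟨E ᵥ* AR.adjugate, ?_⟩
        rw [Matrix.vecMul_vecMul, Matrix.adjugate_mul, Matrix.vecMul_smul, Matrix.vecMul_one]
      have h2 : AR.det • E
          = ∑ i, z i • (Sum.elim R (fun k => Pi.single (jj k) (1 : ℚ[X])) (e1 i)) := by
        rw [hz]
        funext j
        simp only [Matrix.vecMul, dotProduct, hAR, Matrix.of_apply, Finset.sum_apply,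
          Pi.smul_apply, smul_eq_mul]
      rw [h2]
      refine Submodule.sum_mem _ fun i _ => Submodule.smul_mem _ _ ?_
      rcases hi : e1 i with l | k
      · exact R_mem_SS q' B' P R 0 l
      · exfalso
        have h3 : Fintype.card d = e + Fintype.card κ := by
          rw [Fintype.card_congr e1, Fintype.card_sum, Fintype.card_fin]
        have h4 : 0 < Fintype.card κ := Fintype.card_pos_iff.2 ⟨k⟩
        omega
    exact hfin _ 0 hRξ (by omega) hfull
  · obtain ⟨i0, hi0⟩ : ∃ i, u i ≠ 0 := by
      by_contra hcon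
      push Not at hcon
      exact hu0 (funext hcon)
    -- the order of `Dt` at `0`
    have hXT : (PowerSeries.X : PowerSeries ℚ) ^ T ∣ pr H u P := by
      rw [PowerSeries.X_pow_dvd_iff]
      exact hT
    have hunit : IsUnit (hv H u i0) := by
      rw [PowerSeries.isUnit_iff_constantCoeff]
      have h1 : PowerSeries.constantCoeff (hv H u i0) = u i0 := by
        unfold hv
        rw [map_sum, Finset.sum_eq_single i0]
        · rw [map_mul, hG.one, if_pos rfl, one_mul, PowerSeries.constantCoeff_C]
        · intro x _ hx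
          rw [map_mul, hG.one, if_neg (Ne.symm hx), zero_mul]
        · intro h; exact absurd (Finset.mem_univ _) h
      rw [h1]
      exact IsUnit.mk0 _ hi0
    have hXD : X ^ T ∣ Dt q' B' P ε R := by
      rw [Dt_eq]
      set A : Matrix d d ℚ[X] :=
        Matrix.of fun i => Sum.elim (fun k : Fin m' => Pv q' B' P k) R (ε i) with hA
      have h1 : ∀ i, (PowerSeries.X : PowerSeries ℚ) ^ T ∣ ((A.map co) *ᵥ hv H u) i := by
        intro i
        have h2 : ((A.map co) *ᵥ hv H u) i
            = pr H u (Sum.elim (fun k : Fin m' => Pv q' B' P k) R (ε i)) := by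
          simp only [Matrix.mulVec, dotProduct, Matrix.map_apply, hA, Matrix.of_apply, pr]
        rw [h2]
        rcases ε i with k | l
        · exact pr_Pv q' B' _ H hode u hu P T hXT k
        · have : pr H u (R l) = 0 := hR.rel l
          simp only [Sum.elim_inr, this]
          exact dvd_zero _
      have h2 : (A.map co).det • hv H u
          = (A.map co).adjugate *ᵥ ((A.map co) *ᵥ hv H u) := by
        rw [Matrix.mulVec_mulVec, Matrix.adjugate_mul, Matrix.smul_mulVec, Matrix.one_mulVec]
      have h3 := congrFun h2 i0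
      rw [Pi.smul_apply, smul_eq_mul] at h3
      have h4 : (PowerSeries.X : PowerSeries ℚ) ^ T ∣ (A.map co).det * hv H u i0 := by
        rw [h3]
        simp only [Matrix.mulVec, dotProduct] at h1 ⊢
        exact Finset.dvd_sum fun k _ => Dvd.dvd.mul_left (h1 k) _
      have h5 := hunit.dvd_mul_right.1 h4
      have h6 : (A.map co).det = co A.det := by
        have := RingHom.map_det (co : ℚ[X] →+* PowerSeries ℚ) A
        exact this.symm
      rw [h6, co_apply, PowerSeries.X_pow_dvd_iff] at h5
      rw [Polynomial.X_pow_dvd_iff]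
      intro m hm
      have := h5 m hm
      rwa [Polynomial.coeff_coe] at this
    -- the degree of `Dt`
    have hdeg : (Dt q' B' P ε R).natDegree ≤ m' * M + (m' * (c * m') + e * c3) := by
      rw [Dt_eq]
      refine (det_natDegree_le _ (fun i => Sum.elim (fun k : Fin m' => M + c * (k : ℕ))
        (fun _ => c3) (ε i)) ?_).trans ?_
      · intro i j
        rw [Matrix.of_apply]
        rcases ε i with k | l
        · exact Pv_natDegree q' B' P c M hc hB hM k j
        · exact hc3 l j
      · rw [Equiv.sum_comp ε (Sum.elim (fun k : Fin m' => M + c * (k : ℕ)) (fun _ => c3)),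
          Fintype.sum_sum_type]
        simp only [Sum.elim_inl, Sum.elim_inr, Finset.sum_const, Finset.card_univ,
          Fintype.card_fin, smul_eq_mul]
        have h1 : ∑ k : Fin m', (M + c * (k : ℕ)) ≤ m' * (M + c * m') := by
          refine (Finset.sum_le_card_nsmul _ _ (M + c * m') fun k _ => ?_).trans (by
            rw [Finset.card_univ, Fintype.card_fin, smul_eq_mul])
          have := Nat.mul_le_mul_left c k.2.le
          omega
        rw [Nat.mul_add] at h1
        omega
    -- the multiplicity at `ξ`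
    obtain ⟨g, hg, hgd⟩ := Polynomial.exists_eq_pow_rootMultiplicity_mul_and_not_dvd
      (Dt q' B' P ε R) hDt ξ
    set a := rootMultiplicity ξ (Dt q' B' P ε R) with ha
    have hg0 : g.eval ξ ≠ 0 := fun h => hgd (dvd_iff_isRoot.2 h)
    have haτ : a ≤ τ := by
      have hco : IsCoprime (X ^ T : ℚ[X]) ((X - C ξ) ^ a) := by
        refine IsCoprime.pow ?_
        have := Polynomial.isCoprime_X_sub_C_of_isUnit_sub (R := ℚ) (a := 0) (b := ξ)
          (by rw [zero_sub, isUnit_iff_ne_zero]; exact neg_ne_zero.2 hξ)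
        simpa using this
      have h1 : X ^ T * (X - C ξ) ^ a ∣ Dt q' B' P ε R :=
        hco.mul_dvd hXD (by rw [hg]; exact dvd_mul_right _ _)
      have h2 := (natDegree_le_of_dvd h1 hDt).trans hdeg
      rw [Monic.natDegree_mul (monic_X_pow _) ((monic_X_sub_C _).pow _), natDegree_X_pow,
        natDegree_pow, natDegree_X_sub_C, mul_one] at h2
      omega
    obtain ⟨g', hg', hfull⟩ := lowerS q' B' P R F hF ξ hξ hqξ hFξ a m' g hg0 (fun E => by
      rw [← hg]; exact det_fullS q' B' P ε R E)
    exact hfin g' (m' + a) hg' (by omega) hfull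

end Pool.Agent.MT100G.H58
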