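import Mathlib

/-! Linear algebra over domains: completion of independent families, zero blocks, degrees of
determinants. -/

set_option autoImplicit false
set_option linter.unusedSectionVars false

namespace Pool.Agent.MT100G.H58

open Matrix

section

variable {R : Type*} [CommRing R] [IsDomain R] {d : Type} [Fintype d] [DecidableEq d]

omit [DecidableEq d] in
/-- adding one vector to an independent family -/
theorem li_snoc {ρ : Type} [Fintype ρ] (A : ρ → d → R) (hA : LinearIndependent R A) (w : d → R)
    (h : ∀ f : R, f • w ∈ Submodule.span R (Set.range A) → f = 0) :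
    LinearIndependent R (Sum.elim A (fun _ : Unit => w)) := by
  rw [Fintype.linearIndependent_iff] at hA ⊢
  intro g hg
  rw [Fintype.sum_sum_type] at hg
  simp only [Sum.elim_inl, Sum.elim_inr, Finset.univ_unique, Finset.sum_singleton] at hg
  have h1 : g (Sum.inr default) = 0 := by
    refine h _ ?_
    rw [← neg_eq_of_add_eq_zero_right hg]
    refine Submodule.neg_mem _ (Submodule.sum_mem _ fun i _ => Submodule.smul_mem _ _ ?_)
    exact Submodule.subset_span ⟨i, rfl⟩
  rw [h1, zero_smul, add_zero] at hg
  rintro (i | i)
  · exact hA (fun i => g (Sum.inl i)) hg i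
  · have : i = default := Subsingleton.elim _ _
    rw [this]; exact h1

/-- a square matrix with independent rows has nonzero determinant -/
theorem det_ne_zero_of_li (M : d → d → R) (hM : LinearIndependent R M) :
    (Matrix.of M).det ≠ 0 := by
  intro h
  obtain ⟨v, hv0, hv⟩ := Matrix.exists_vecMul_eq_zero_iff.2 h
  apply hv0
  rw [Fintype.linearIndependent_iff] at hM
  funext i
  refine hM v ?_ i
  funext j
  have h1 := congrFun hv j
  simp only [Matrix.vecMul, dotProduct, Matrix.of_apply, Pi.zero_apply] at h1
  rw [Finset.sum_apply]
  simpa using h1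

/-- completion by unit vectors -/
theorem completion (n : ℕ) : ∀ (ρ : Type) [Fintype ρ] (A : ρ → d → R),
    Fintype.card ρ + n = Fintype.card d → LinearIndependent R A →
    ∃ (κ : Type) (_ : Fintype κ) (e : d ≃ ρ ⊕ κ) (j : κ → d),
      (Matrix.of fun i => Sum.elim A (fun k => Pi.single (j k) (1 : R)) (e i)).det ≠ 0 := by
  induction n with
  | zero =>
      intro ρ _ A hc hA
      have e0 : d ≃ ρ := Fintype.equivOfCardEq (by omega)
      refine ⟨Empty, inferInstance, e0.trans (Equiv.sumEmpty ρ Empty).symm, Empty.elim, ?_⟩
      refine det_ne_zero_of_li _ ?_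
      exact hA.comp e0 e0.injective
  | succ n ih =>
      intro ρ _ A hc hA
      by_cases hj : ∃ j : d, ∀ f : R, f • (Pi.single j (1 : R) : d → R) ∈
          Submodule.span R (Set.range A) → f = 0
      · obtain ⟨j, hj⟩ := hj
        obtain ⟨κ, hκ, e, j', hdet⟩ := ih (ρ ⊕ Unit) (Sum.elim A fun _ => Pi.single j 1)
          (by rw [Fintype.card_sum, Fintype.card_unit]; omega) (li_snoc A hA _ hj)
        refine ⟨Unit ⊕ κ, inferInstance, e.trans (Equiv.sumAssoc ρ Unit κ),
          Sum.elim (fun _ => j) j', ?_⟩
        have : (Matrix.of fun i => Sum.elim A (fun k => Pi.single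
            ((Sum.elim (fun _ => j) j' : Unit ⊕ κ → d) k) (1 : R))
            ((e.trans (Equiv.sumAssoc ρ Unit κ)) i) : Matrix d d R)
            = Matrix.of fun i => Sum.elim (Sum.elim A fun _ => Pi.single j 1)
              (fun k => Pi.single (j' k) (1 : R)) (e i) := by
          ext i l
          simp only [Matrix.of_apply, Equiv.trans_apply]
          rcases e i with (a | a) | a <;> rfl
        rw [this]
        exact hdet
      · exfalso
        push Not at hj
        choose f hf hf0 using hj
        have h1 : LinearIndependent R fun j : d => f j • (Pi.single j (1 : R) : d → R) := by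
          rw [Fintype.linearIndependent_iff]
          intro g hg i
          have h2 := congrFun hg i
          rw [Finset.sum_apply, Finset.sum_eq_single i] at h2
          · simp only [Pi.smul_apply, Pi.single_eq_same, smul_eq_mul, mul_one,
              Pi.zero_apply] at h2
            exact (mul_eq_zero.1 h2).resolve_right (hf0 i)
          · intro b _ hb
            simp [Ne.symm hb]
          · intro h; exact absurd (Finset.mem_univ _) h
        have hft : Fintype (Set.range A) := Fintype.ofFinite _
        have h3 := linearIndependent_le_span' _ h1 (Set.range A) (by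
          rintro _ ⟨j, rfl⟩
          exact hf j)
        have h4 : Fintype.card (Set.range A) ≤ Fintype.card ρ :=
          Fintype.card_le_of_surjective _ Set.rangeFactorization_surjective
        rw [Cardinal.mk_fintype] at h3
        have h5 : Fintype.card d ≤ Fintype.card (Set.range A) := by exact_mod_cast h3
        omega

/-- zero blocks -/
theorem card_le_of_zero_block (M : Matrix d d R) (hM : M.det ≠ 0) (S T : Finset d)
    (h : ∀ i ∈ S, ∀ j ∈ T, M i j = 0) : S.card + T.card ≤ Fintype.card d := by
  classical
  by_contra hc
  push Not at hc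
  apply hM
  rw [Matrix.det_apply]
  refine Finset.sum_eq_zero fun σ _ => ?_
  -- some `j ∈ T` with `σ j ∈ S`
  obtain ⟨j, hj, hσ⟩ : ∃ j ∈ T, σ j ∈ S := by
    by_contra hcon
    push Not at hcon
    have h1 : (T.map σ.toEmbedding).card + S.card ≤ Fintype.card d := by
      rw [← Finset.card_union_of_disjoint]
      · exact Finset.card_le_univ _
      · rw [Finset.disjoint_left]
        intro x hx hx'
        obtain ⟨j, hj, rfl⟩ := Finset.mem_map.1 hx
        exact hcon j hj hx'
    rw [Finset.card_map] at h1
    omega
  have h2 : ∏ i, M (σ i) i = 0 := Finset.prod_eq_zero (Finset.mem_univ j) (h _ hσ _ hj)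
  rw [h2, smul_zero]

end

/-- degrees of determinants -/
theorem det_natDegree_le {d : Type} [Fintype d] [DecidableEq d] (A : Matrix d d (Polynomial ℚ))
    (r : d → ℕ) (h : ∀ i j, (A i j).natDegree ≤ r i) : A.det.natDegree ≤ ∑ i, r i := by
  rw [Matrix.det_apply]
  refine Polynomial.natDegree_sum_le_of_forall_le _ _ fun σ _ => ?_
  have h1 : (∏ i, A (σ i) i).natDegree ≤ ∑ i, r i := by
    refine (Polynomial.natDegree_prod_le _ _).trans ?_
    rw [← Equiv.sum_comp σ r]
    exact Finset.sum_le_sum fun i _ => h _ _
  rcases Int.units_eq_one_or (Equiv.Perm.sign σ) with h2 | h2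
  · rw [h2, one_smul]; exact h1
  · rw [h2, Units.neg_smul, one_smul, Polynomial.natDegree_neg]; exact h1

end Pool.Agent.MT100G.H58
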