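import Pool.Agent.Helper58_MTG.Lin
import Pool.Agent.Helper58_MT.Stm
import Pool.Agent.MT100G.Stmts

/-! Saturated stable modules of row vectors, orthogonality of all coefficients. -/

set_option autoImplicit false
set_option linter.unusedSectionVars false

namespace Pool.Agent.MT100G.H58

open Matrix Polynomial Pool.Agent.MT100 Pool.Agent.Helper58_MT

variable {d : Type} [Fintype d] [DecidableEq d]

/-- a row vector as a matrix -/
def rr {R : Type*} (p : d → R) : Matrix Unit d R := Matrix.of fun _ => p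

theorem rr_inj {R : Type*} {p p' : d → R} (h : rr p = rr p') : p = p' := by
  funext j
  exact congrFun (congrFun h ()) j

/-- the operator on row vectors -/
noncomputable def nb (q : ℚ[X]) (B : Matrix d d ℚ[X]) (m : ℕ) (p : d → ℚ[X]) : d → ℚ[X] :=
  fun j => stp q B (0 : Matrix Unit Unit ℚ) m (rr p) () j

theorem rr_nb (q : ℚ[X]) (B : Matrix d d ℚ[X]) (m : ℕ) (p : d → ℚ[X]) :
    rr (nb q B m p) = stp q B (0 : Matrix Unit Unit ℚ) m (rr p) := by
  ext x j : 2
  rfl

theorem rr_Pv (q : ℚ[X]) (B : Matrix d d ℚ[X]) (P : d → ℚ[X]) (k : ℕ) :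
    rr (Pv q B P k) = pk q B (0 : Matrix Unit Unit ℚ) (rr P) k := by
  induction k with
  | zero => rfl
  | succ k ih =>
      rw [pk, ← ih, stp]
      have h0 : (0 : Matrix Unit Unit ℚ).map (C : ℚ →+* ℚ[X]) = 0 := by ext; simp
      rw [h0, Matrix.zero_mul, smul_zero, sub_zero]
      ext x j : 2
      simp only [rr, Matrix.of_apply, Pv, Pi.smul_apply, Pi.sub_apply, Pi.add_apply,
        Matrix.smul_apply, Matrix.sub_apply, Matrix.add_apply, Matrix.map_apply, smul_eq_mul,
        Polynomial.smul_eq_C_mul, Matrix.mul_apply, Matrix.vecMul, dotProduct, map_natCast]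
      rw [mul_assoc (k : ℚ[X])]

theorem nb_add (q : ℚ[X]) (B : Matrix d d ℚ[X]) (m : ℕ) (p p' : d → ℚ[X]) :
    nb q B m (p + p') = nb q B m p + nb q B m p' := by
  apply rr_inj
  rw [rr_nb]
  exact (stp_add q B 0 m (rr p) (rr p'))

theorem nb_zero (q : ℚ[X]) (B : Matrix d d ℚ[X]) (m : ℕ) :
    nb q B m (0 : d → ℚ[X]) = 0 := by
  apply rr_inj
  rw [rr_nb]
  exact stp_zero q B 0 m

theorem nb_smul (q : ℚ[X]) (B : Matrix d d ℚ[X]) (m : ℕ) (f : ℚ[X]) (p : d → ℚ[X]) :
    nb q B m (f • p) = f • nb q B m p + (X * q * derivative f) • p := by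
  apply rr_inj
  rw [rr_nb]
  exact stp_smul q B 0 m f (rr p)

theorem nb_index (q : ℚ[X]) (B : Matrix d d ℚ[X]) (k m : ℕ) (p : d → ℚ[X]) :
    nb q B m p = nb q B k p + (((k : ℚ[X]) - (m : ℚ[X])) * derivative (X * q)) • p := by
  apply rr_inj
  rw [rr_nb]
  exact stp_index q B 0 k m (rr p)

theorem Pv_succ (q : ℚ[X]) (B : Matrix d d ℚ[X]) (P : d → ℚ[X]) (k : ℕ) :
    ((k : ℚ[X]) + 1) • Pv q B P (k + 1) = nb q B k (Pv q B P k) := by
  apply rr_inj
  rw [rr_nb, rr_Pv, ← pk_succ, ← rr_Pv]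
  rfl

theorem natCast_succ_ne (k : ℕ) : ((k : ℚ[X]) + 1) ≠ 0 := by
  have : ((k : ℚ[X]) + 1) = ((k + 1 : ℕ) : ℚ[X]) := by push_cast; ring
  rw [this]
  exact_mod_cast Nat.succ_ne_zero k

/-- saturation -/
def sat (S : Submodule ℚ[X] (d → ℚ[X])) : Submodule ℚ[X] (d → ℚ[X]) where
  carrier := {p | ∃ f : ℚ[X], f ≠ 0 ∧ f • p ∈ S}
  add_mem' := by
    rintro a b ⟨f, hf, ha⟩ ⟨g, hg, hb⟩
    refine ⟨f * g, mul_ne_zero hf hg, ?_⟩
    rw [smul_add]
    refine S.add_mem ?_ ?_
    · rw [mul_comm, mul_smul]; exact S.smul_mem _ ha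
    · rw [mul_smul]; exact S.smul_mem _ hb
  zero_mem' := ⟨1, one_ne_zero, by rw [smul_zero]; exact S.zero_mem⟩
  smul_mem' := by
    rintro c a ⟨f, hf, ha⟩
    exact ⟨f, hf, by rw [smul_comm]; exact S.smul_mem _ ha⟩

theorem le_sat (S : Submodule ℚ[X] (d → ℚ[X])) : S ≤ sat S := fun p hp =>
  ⟨1, one_ne_zero, by rw [one_smul]; exact hp⟩

theorem sat_of_smul {S : Submodule ℚ[X] (d → ℚ[X])} {f : ℚ[X]} (hf : f ≠ 0) {p : d → ℚ[X]}
    (h : f • p ∈ sat S) : p ∈ sat S := by
  obtain ⟨g, hg, h⟩ := h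
  exact ⟨g * f, mul_ne_zero hg hf, by rw [mul_smul]; exact h⟩

theorem sat_mono {S S' : Submodule ℚ[X] (d → ℚ[X])} (h : S ≤ S') : sat S ≤ sat S' := by
  rintro p ⟨f, hf, hp⟩
  exact ⟨f, hf, h hp⟩

/-- the span of the first `n` forms and the relations -/
noncomputable def SS (q : ℚ[X]) (B : Matrix d d ℚ[X]) (P : d → ℚ[X]) {e : ℕ} (R : Fin e → d → ℚ[X])
    (n : ℕ) : Submodule ℚ[X] (d → ℚ[X]) :=
  Submodule.span ℚ[X] (Set.range R ∪ Pv q B P '' {k | k < n})

theorem SS_mono (q : ℚ[X]) (B : Matrix d d ℚ[X]) (P : d → ℚ[X]) {e : ℕ} (R : Fin e → d → ℚ[X])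
    {n n' : ℕ} (h : n ≤ n') : SS q B P R n ≤ SS q B P R n' := by
  refine Submodule.span_mono (Set.union_subset_union_right _ (Set.image_mono fun k hk => ?_))
  exact lt_of_lt_of_le hk h

theorem R_mem_SS (q : ℚ[X]) (B : Matrix d d ℚ[X]) (P : d → ℚ[X]) {e : ℕ} (R : Fin e → d → ℚ[X])
    (n : ℕ) (j : Fin e) : R j ∈ SS q B P R n :=
  Submodule.subset_span (Or.inl ⟨j, rfl⟩)

theorem P_mem_SS (q : ℚ[X]) (B : Matrix d d ℚ[X]) (P : d → ℚ[X]) {e : ℕ} (R : Fin e → d → ℚ[X])
    {k n : ℕ} (h : k < n) : Pv q B P k ∈ SS q B P R n :=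
  Submodule.subset_span (Or.inr ⟨k, h, rfl⟩)

/-- stability -/
theorem nb_sat (q : ℚ[X]) (B : Matrix d d ℚ[X]) (P : d → ℚ[X]) {e : ℕ} (R : Fin e → d → ℚ[X])
    (n : ℕ) (hP : Pv q B P n ∈ sat (SS q B P R n))
    (hR : ∀ j, nb q B 0 (R j) ∈ sat (SS q B P R n)) (m : ℕ) (p : d → ℚ[X])
    (hp : p ∈ sat (SS q B P R n)) : nb q B m p ∈ sat (SS q B P R n) := by
  set S := sat (SS q B P R n) with hS
  have key : ∀ x ∈ SS q B P R n, nb q B m x ∈ S := by
    intro x hx
    unfold SS at hx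
    induction hx using Submodule.span_induction with
    | mem x hx =>
        rcases hx with ⟨j, rfl⟩ | ⟨k, hk, rfl⟩
        · rw [nb_index q B 0 m]
          exact S.add_mem (hR j) (S.smul_mem _ (le_sat _ (R_mem_SS q B P R n j)))
        · rw [nb_index q B k m, ← Pv_succ]
          refine S.add_mem (S.smul_mem _ ?_) (S.smul_mem _ (le_sat _ (P_mem_SS q B P R hk)))
          have hk' : k < n := hk
          rcases Nat.lt_or_ge (k + 1) n with h | h
          · exact le_sat _ (P_mem_SS q B P R h)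
          · have : k + 1 = n := by omega
            rw [this]; exact hP
    | zero => rw [nb_zero]; exact S.zero_mem
    | add x y _ _ hx hy => rw [nb_add]; exact S.add_mem hx hy
    | smul c x hx' hx =>
        rw [nb_smul]
        exact S.add_mem (S.smul_mem _ hx) (S.smul_mem _ (le_sat _ hx'))
  obtain ⟨f, hf, hfp⟩ := hp
  have h1 := key _ hfp
  rw [nb_smul] at h1
  have h2 : p ∈ S := ⟨f, hf, hfp⟩
  have h3 : f • nb q B m p ∈ S := by
    have := S.sub_mem h1 (S.smul_mem (X * q * derivative f) h2)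
    rwa [add_sub_cancel_right] at this
  exact sat_of_smul hf h3

/-- the iterates stay in a stable module -/
theorem Pv_sat (q : ℚ[X]) (B : Matrix d d ℚ[X]) (S : Submodule ℚ[X] (d → ℚ[X]))
    (hS : ∀ m, ∀ p ∈ sat S, nb q B m p ∈ sat S) (p : d → ℚ[X]) (hp : p ∈ sat S) (k : ℕ) :
    Pv q B p k ∈ sat S := by
  induction k with
  | zero => exact hp
  | succ k ih =>
      have h1 := hS k _ ih
      rw [← Pv_succ] at h1
      exact sat_of_smul (natCast_succ_ne k) h1

/-- the coefficient vectors of `p H` -/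
noncomputable def wv (H : Matrix d d (PowerSeries ℚ)) (p : d → ℚ[X]) (j : ℕ) : d → ℚ :=
  fun i => PowerSeries.coeff j (∑ x, co (p x) * H x i)

/-- orthogonality of all coefficients -/
theorem orth (q : ℚ[X]) (hq : q ≠ 0) (B : Matrix d d ℚ[X]) (N : Matrix d d ℚ)
    (hN : IsNilpotent N) (H K : Matrix d d (PowerSeries ℚ)) (hHK : H * K = 1)
    (hH : co (X * q) • H.map (PowerSeries.derivative ℚ) = B.map co * H - co q • (H * pc N))
    (S : Submodule ℚ[X] (d → ℚ[X])) (hS : ∀ m, ∀ p ∈ sat S, nb q B m p ∈ sat S)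
    (G : d → ℚ[X]) (hG : ∀ p ∈ S, ∑ i, p i * G i = 0) (p : d → ℚ[X]) (hp : p ∈ sat S)
    (j l : ℕ) : ∑ i, wv H p j i * PowerSeries.coeff l (∑ x, K i x * co (G x)) = 0 := by
  -- orthogonality on the saturation
  have hG' : ∀ p ∈ sat S, ∑ i, p i * G i = 0 := by
    rintro p ⟨f, hf, hfp⟩
    have h1 := hG _ hfp
    simp only [Pi.smul_apply, smul_eq_mul, mul_assoc] at h1
    rw [← Finset.mul_sum] at h1
    exact (mul_eq_zero.1 h1).resolve_left hf
  set G' : Matrix d Unit ℚ[X] := Matrix.of fun i _ => G i with hG'def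
  have horth : ∀ m, trace (pk q B (0 : Matrix Unit Unit ℚ) (rr p) m * G') = 0 := by
    intro m
    rw [← rr_Pv]
    have := hG' _ (Pv_sat q B S hS p hp m)
    simpa [trace, Matrix.mul_apply, rr, hG'def] using this
  set F : Matrix d Unit (PowerSeries ℚ) := K * G'.map co with hF
  have hHF : H * F = G'.map co := by rw [hF, ← Matrix.mul_assoc, hHK, Matrix.one_mul]
  set W : Matrix Unit d (PowerSeries ℚ) := (rr p).map co * H with hW
  have htr : ∀ m, trace (aeval (nab N 0) (bet m) W * F) = 0 := by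
    intro m
    have h1 : trace ((pk q B (0 : Matrix Unit Unit ℚ) (rr p) m).map co * H * F) = 0 := by
      rw [Matrix.mul_assoc, hHF]
      have h2 := congrArg co (horth m)
      rw [map_zero] at h2
      rw [← h2]
      simp only [trace, diag_apply, Matrix.mul_apply, Matrix.map_apply, map_sum, map_mul]
    rw [pk_nab q B N 0 H hH (rr p) m, Matrix.smul_mul, trace_smul, smul_eq_mul] at h1
    exact (mul_eq_zero.1 h1).resolve_left (pow_ne_zero _ fun h => hq (co_eq_zero.1 h))
  have hall : ∀ f : ℚ[X], trace (aeval (nab N 0) f W * F) = 0 := by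
    intro f
    let S : Submodule ℚ ℚ[X] :=
      { carrier := {f | trace (aeval (nab N 0) f W * F) = 0}
        add_mem' := by
          intro a b ha hb
          simp only [Set.mem_ofPred_eq] at ha hb ⊢
          rw [map_add, LinearMap.add_apply, Matrix.add_mul, trace_add, ha, hb, add_zero]
        zero_mem' := by simp
        smul_mem' := by
          intro c a ha
          simp only [Set.mem_ofPred_eq] at ha ⊢
          rw [map_smul, LinearMap.smul_apply, Matrix.smul_mul, trace_smul, ha, smul_zero] }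
    exact bet_span S htr f
  have hadnil : IsNilpotent (ad N (0 : Matrix Unit Unit ℚ)) := by
    obtain ⟨e, he⟩ := hN
    refine ⟨e, ?_⟩
    have : ∀ t : ℕ, ∀ Z : Matrix Unit d ℚ, ((ad N (0 : Matrix Unit Unit ℚ)) ^ t) Z = Z * N ^ t := by
      intro t
      induction t with
      | zero => intro Z; simp
      | succ t ih =>
          intro Z
          rw [pow_succ', Module.End.mul_apply, ih, ad_apply, Matrix.zero_mul, sub_zero,
            Matrix.mul_assoc, ← pow_succ]
    ext1 Z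
    rw [this, he, Matrix.mul_zero, LinearMap.zero_apply]
  have hext := extract N 0 hadnil W F hall 0 j l
  rw [pow_zero, Module.End.one_apply] at hext
  rw [← hext]
  simp only [trace, Finset.univ_unique, diag_apply, Finset.sum_singleton, Matrix.mul_apply,
    cf_apply]
  refine Finset.sum_congr rfl fun i _ => ?_
  rfl

end Pool.Agent.MT100G.H58
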